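import Pool.Agent.Helper65.E3.Defs

/-!
Part CERT3: the pointwise certificate for order three.
-/

set_option autoImplicit false

open Real

namespace Pool.Agent.Helper11.E3.CERT3

open Pool.Agent.Helper65.ET (BB)
open Pool.Agent.Helper65.E3

/-- the constant term divided by `v` -/
noncomputable def QQ (v : ℝ) : ℝ :=
  (1 - v) ^ 2 - (2 - v) / 50 + 11 / 75 * (19 / 40 * v - v ^ 2 / 3)

/-- the discriminant divided by `v` -/
noncomputable def TT (v : ℝ) : ℝ :=
  (102 / 25 * (284 / 625) -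
    v * (11 / 25 * (19 / 20 - v)) * (1 + 71 / 25 * v + 5041 / 10000 * v ^ 2)) * QQ v -
    102 / 25 * (11 / 25 * (19 / 20 - v)) * (1 - 71 / 100 * v) ^ 2

lemma TT_nonneg (v : ℝ) (h0 : 0 ≤ v) (h1 : v ≤ 19 / 20) : 0 ≤ TT v := by
  have h3 : 0 ≤ 19 / 20 - v := by linarith
  have e : TT v =
      (118966272 / 1176147025) * (v ^ 0 * (19 / 20 - v) ^ 6) +
      (28256123648 / 29403675625) * (v ^ 1 * (19 / 20 - v) ^ 5) +
      (200985573968 / 147018378125) * (v ^ 2 * (19 / 20 - v) ^ 4) +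
      (8609048274874 / 6615827015625) * (v ^ 3 * (19 / 20 - v) ^ 3) +
      (613603259649073 / 588073512500000) * (v ^ 4 * (19 / 20 - v) ^ 2) +
      (83637155124263 / 1764220537500000) * (v ^ 5 * (19 / 20 - v) ^ 1) +
      (792255488 / 88211026875) * (v ^ 6 * (19 / 20 - v) ^ 0) := by
    unfold TT QQ
    ring
  rw [e]
  positivity

lemma QQ_nonneg (v : ℝ) (h0 : 0 ≤ v) (h1 : v ≤ 19 / 20) : 0 ≤ QQ v := by
  have h3 : 0 ≤ 19 / 20 - v := by linarith
  have e : QQ v =
      (384 / 361) * (v ^ 0 * (19 / 20 - v) ^ 2) +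
      (6311 / 54150) * (v ^ 1 * (19 / 20 - v) ^ 1) +
      (641 / 162450) * (v ^ 2 * (19 / 20 - v) ^ 0) := by
    unfold QQ
    ring
  rw [e]
  positivity

lemma A_pos (v : ℝ) (h0 : 0 ≤ v) (h1 : v ≤ 19 / 20) :
    0 < 102 / 25 * (284 / 625) -
      11 / 25 * v * (19 / 20 - v) * (1 + 71 / 25 * v + 5041 / 10000 * v ^ 2) := by
  have h3 : 0 ≤ 19 / 20 - v := by linarith
  have h4 : v * (19 / 20 - v) ≤ 361 / 1600 := by nlinarith [sq_nonneg (v - 19 / 40)]
  have h5 : 1 + 71 / 25 * v + 5041 / 10000 * v ^ 2 ≤ 1 + 71 / 25 * 1 + 5041 / 10000 * 1 := by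
    nlinarith
  have h6 : v * (19 / 20 - v) * (1 + 71 / 25 * v + 5041 / 10000 * v ^ 2) ≤
      361 / 1600 * (1 + 71 / 25 * 1 + 5041 / 10000 * 1) := by
    apply mul_le_mul h4 h5 (by positivity) (by norm_num)
  nlinarith

lemma HH3_of_le {v : ℝ} (h : v ≤ 19 / 20) :
    HH3 v = -(11 / 25) * (19 / 40 * v ^ 2 - v ^ 3 / 3) := by
  unfold HH3; rw [if_pos h]

lemma HH3_of_ge {v : ℝ} (h : 19 / 20 ≤ v) : HH3 v = -(11 / 25) * ((19 / 20) ^ 3 / 6) := by
  unfold HH3
  rcases h.lt_or_eq with h1 | h1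
  · rw [if_neg (not_le.mpr h1)]
  · rw [if_pos h1.ge, ← h1]; norm_num

theorem main : S_CERT3 := by
  intro v q W hv hq hW0 hW
  rcases le_total v (19 / 20) with h | h
  · have hB : BB v = 0 := by
      unfold BB
      have : √v ≤ 1 := by rw [Real.sqrt_le_one]; linarith
      rw [max_eq_left (by linarith)]; norm_num
    have hh' : hh3 v = -(11 / 25) * v * (19 / 20 - v) := by
      unfold hh3; rw [max_eq_right (by linarith)]
    rw [hB, HH3_of_le h, hh']
    have hT := TT_nonneg v hv h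
    have hQ := QQ_nonneg v hv h
    have hT' := mul_nonneg hv hT
    unfold TT at hT'
    have haa : √(284 / 625 : ℝ) ^ 2 = 284 / 625 := Real.sq_sqrt (by norm_num)
    have e1 : √(71 / 100 : ℝ) ^ 2 = 71 / 100 := Real.sq_sqrt (by norm_num)
    have e2 : √v ^ 2 = v := Real.sq_sqrt hv
    have e3 : (√(71 / 100) * √v) ^ 2 = 71 / 100 * v := by rw [mul_pow, e1, e2]
    have h19 : 0 ≤ 19 / 20 - v := by linarith
    have hgoal := Pool.Agent.Helper65.ET.core (102 / 25) √(284 / 625)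
      (11 / 25 * v * (19 / 20 - v))
      (1 + 71 / 25 * v + 5041 / 10000 * v ^ 2)
      (v * QQ v) (1 - 71 / 100 * v) √q W
      (by norm_num) (by positivity) (by positivity) (by positivity) (by linarith)
      (Real.sqrt_nonneg _) (mul_nonneg hv hQ)
      (by rw [haa]; exact A_pos v hv h) (by rw [haa]; linarith) (by norm_num) hW0
      (by
        intro t ht
        have h1 := hW (√(71 / 100) * √v) t (by positivity) ht
        have e4 : 2 * (√(71 / 100) * √v) * √(71 / 100) * √v = 71 / 50 * v := by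
          have : 2 * (√(71 / 100) * √v) * √(71 / 100) * √v =
            2 * (√(71 / 100) ^ 2) * (√v ^ 2) := by ring
          rw [this, e1, e2]; ring
        have e5 : (√(71 / 100) * √v) ^ 4 = 5041 / 10000 * v ^ 2 := by
          have : (√(71 / 100) * √v) ^ 4 = ((√(71 / 100) * √v) ^ 2) ^ 2 := by ring
          rw [this, e3]; ring
        rw [e4, e3, e5] at h1
        linarith)
    rw [Real.sq_sqrt hq] at hgoal
    unfold QQ at hgoal
    linarith
  · have hh' : hh3 v = 0 := by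
      unfold hh3; rw [max_eq_left (by linarith)]; ring
    rw [hh', HH3_of_ge h]
    have e2 : √v ^ 2 = v := Real.sq_sqrt hv
    have hk2 : (0 : ℝ) ≤ -(1 / 50) - 1 / 3 * (-(11 / 25) * ((19 / 20) ^ 3 / 6)) := by norm_num
    unfold BB
    rcases le_total √v 1 with h1 | h1
    · rw [max_eq_left (by linarith)]
      have h3 : 0 ≤ (v - 1) ^ 2 * (v + 1 / 50) := by positivity
      linarith
    · rw [max_eq_right (by linarith)]
      have key : 0 ≤ (√v ^ 2 - 1) ^ 2 * (√v ^ 2 + 1 / 50) - 102 / 25 * (√v - 1) ^ 2 := by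
        obtain ⟨e, he, he0⟩ : ∃ e : ℝ, √v = 1 + e ∧ 0 ≤ e := ⟨√v - 1, by ring, by linarith⟩
        rw [he]
        have : ((1 + e) ^ 2 - 1) ^ 2 * ((1 + e) ^ 2 + 1 / 50) - 102 / 25 * (1 + e - 1) ^ 2 =
            e ^ 2 * (604 / 50 * e + 651 / 50 * e ^ 2 + 6 * e ^ 3 + e ^ 4) := by ring
        rw [this]; positivity
      rw [e2] at key
      linarith

end Pool.Agent.Helper11.E3.CERT3
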