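import Pool.Agent.Helper65.E3.Defs

/-!
Part FAM3: properties of the functions `hh3`, `HH3`, `kap3`, `KK3` (order three).
-/

set_option autoImplicit false

open Real Set

namespace Pool.Agent.Helper11.E3.FAM3

open Pool.Agent.Helper65.E3

lemma hasDerivAt_kap3 (v : ℝ) : HasDerivAt kap3 (kap3' v) v := by
  unfold kap3 kap3'
  refine Pool.Agent.Helper65.ET.ite_hasDerivAt (f := fun v => -(11 / 25) * (19 / 40 * v - v ^ 2 / 3))
    (g := fun v => -(11 / 25) * ((19 / 20) ^ 3 / 6) / v)
    (f' := fun v => -(11 / 25) * (19 / 40 - 2 / 3 * v))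
    (g' := fun v => (11 / 25) * ((19 / 20) ^ 3 / 6) / v ^ 2) (19 / 20) ?_ ?_ (by norm_num)
    (by norm_num) v
  · intro v _
    have h1 : HasDerivAt (fun v : ℝ => 19 / 40 * v - v ^ 2 / 3) (19 / 40 - 2 / 3 * v) v := by
      have h2 := ((hasDerivAt_id v).const_mul (19 / 40)).sub
        (((hasDerivAt_id v).fun_pow 2).div_const 3)
      refine h2.congr_deriv ?_
      simp; ring
    exact h1.const_mul (-(11 / 25) : ℝ)
  · intro v hv
    have hv0 : v ≠ 0 := by linarith
    have := (hasDerivAt_inv hv0).const_mul (-(11 / 25) * ((19 / 20) ^ 3 / 6) : ℝ)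
    refine (this.congr_deriv ?_).congr_of_eventuallyEq (Filter.Eventually.of_forall fun w => ?_)
    · field_simp
    · simp only [div_eq_mul_inv]

lemma hasDerivAt_KK3 (v : ℝ) : HasDerivAt KK3 (kap3 v) v := by
  unfold kap3 KK3
  refine Pool.Agent.Helper65.ET.ite_hasDerivAt
    (f := fun v => -(11 / 25) * (19 / 80 * v ^ 2 - v ^ 3 / 9))
    (g := fun v =>
      -(11 / 25) * (5 / 36 * (19 / 20) ^ 3 + (19 / 20) ^ 3 / 6 * log (v / (19 / 20))))
    (f' := fun v => -(11 / 25) * (19 / 40 * v - v ^ 2 / 3))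
    (g' := fun v => -(11 / 25) * ((19 / 20) ^ 3 / 6) / v) (19 / 20) ?_ ?_ ?_ ?_ v
  · intro v _
    have h1 : HasDerivAt (fun v : ℝ => 19 / 80 * v ^ 2 - v ^ 3 / 9) (19 / 40 * v - v ^ 2 / 3) v := by
      have h2 := (((hasDerivAt_id v).fun_pow 2).const_mul (19 / 80)).sub
        (((hasDerivAt_id v).fun_pow 3).div_const 9)
      refine h2.congr_deriv ?_
      simp; ring
    exact h1.const_mul (-(11 / 25) : ℝ)
  · intro v hv
    have hv0 : v ≠ 0 := by linarith
    have h1 : HasDerivAt (fun v : ℝ => log (v / (19 / 20))) (1 / v) v := by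
      have h2 : HasDerivAt (fun v : ℝ => v / (19 / 20)) (1 / (19 / 20)) v :=
        (hasDerivAt_id v).div_const (19 / 20)
      have h3 := h2.log (by positivity)
      refine h3.congr_deriv ?_
      field_simp
    have h4 := ((h1.const_mul ((19 / 20) ^ 3 / 6 : ℝ)).const_add
      (5 / 36 * (19 / 20) ^ 3)).const_mul (-(11 / 25) : ℝ)
    refine h4.congr_deriv ?_
    field_simp
  · norm_num
  · norm_num

lemma kap3_continuous : Continuous kap3 :=
  continuous_iff_continuousAt.mpr fun v => (hasDerivAt_kap3 v).continuousAt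

lemma KK3_continuous : Continuous KK3 :=
  continuous_iff_continuousAt.mpr fun v => (hasDerivAt_KK3 v).continuousAt

lemma HH3_eq (v : ℝ) : HH3 v = v * kap3 v := by
  unfold HH3 kap3
  split_ifs with h
  · ring
  · have : v ≠ 0 := by linarith [not_le.mp h]
    field_simp

lemma hh3_eq (v : ℝ) : hh3 v = kap3 v + v * kap3' v := by
  unfold hh3 kap3 kap3'
  split_ifs with h
  · rw [max_eq_right (by linarith)]; ring
  · have : v ≠ 0 := by linarith [not_le.mp h]
    rw [max_eq_left (by linarith [not_le.mp h])]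
    field_simp
    ring

lemma kap3'_continuous : Continuous kap3' := by
  have h : kap3' = fun v => if v ≤ 19 / 20 then -(11 / 25) * (19 / 40 - 2 / 3 * v)
      else (11 / 25) * ((19 / 20) ^ 3 / 6) / (max (19 / 20) v) ^ 2 := by
    funext v
    unfold kap3'
    split_ifs with h
    · rfl
    · rw [max_eq_right (not_le.mp h).le]
  rw [h]
  refine Continuous.if_le (by fun_prop) ?_ continuous_id continuous_const ?_
  · apply Continuous.div continuous_const (by fun_prop)
    intro v
    have : 0 < max (19 / 20 : ℝ) v := lt_max_of_lt_left (by norm_num)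
    positivity
  · intro v hv
    have hv' : v = 19 / 20 := hv
    rw [hv', max_self]; norm_num

lemma abs_kap3_le {v : ℝ} (hv : 0 ≤ v) : |kap3 v| ≤ 1 := by
  unfold kap3
  split_ifs with h
  · rw [abs_le]; constructor <;> nlinarith
  · have h1 := not_le.mp h
    have h0 : 0 < v := by linarith
    rw [abs_div, div_le_one (by positivity), abs_of_pos h0]
    norm_num [abs_of_pos]
    linarith

lemma kap3_nonpos {v : ℝ} (hv : 0 ≤ v) : kap3 v ≤ 0 := by
  unfold kap3
  split_ifs with h
  · have : 0 ≤ v * (19 / 40 - v / 3) := mul_nonneg hv (by linarith)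
    nlinarith
  · have h1 := not_le.mp h
    have h0 : 0 < v := by linarith
    have : 0 ≤ (11 / 25) * ((19 / 20) ^ 3 / 6) / v := by positivity
    have e : -(11 / 25) * ((19 / 20) ^ 3 / 6) / v = -((11 / 25) * ((19 / 20) ^ 3 / 6) / v) := by
      ring
    rw [e]
    linarith

lemma abs_KK3_le {v : ℝ} (hv : 0 ≤ v) : |KK3 v| ≤ v := by
  have h1 : ∀ x ∈ Icc (0 : ℝ) v, ‖KK3 x - KK3 0‖ ≤ 1 * (x - 0) := by
    apply norm_image_sub_le_of_norm_deriv_le_segment' (f' := kap3)
    · intro x _; exact (hasDerivAt_KK3 x).hasDerivWithinAt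
    · intro x hx; exact abs_kap3_le hx.1
  have h2 := h1 v ⟨hv, le_rfl⟩
  have h3 : KK3 0 = 0 := by unfold KK3; norm_num
  rw [h3, sub_zero, sub_zero, one_mul, Real.norm_eq_abs] at h2
  exact h2

theorem main : S_FAM3 := by
  refine ⟨?_, ?_, kap3_continuous, KK3_continuous, fun v hv => abs_kap3_le hv,
    fun v hv => abs_KK3_le hv, fun v hv => ?_, fun v hv => ?_⟩
  · unfold hh3; fun_prop
  · have : HH3 = fun v => v * kap3 v := funext HH3_eq
    rw [this]
    exact continuous_id.mul kap3_continuous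
  · rw [HH3_eq]
    exact mul_nonpos_of_nonneg_of_nonpos hv (kap3_nonpos hv)
  · unfold hh3
    rcases le_total v (19 / 20) with h | h
    · rw [max_eq_right (by linarith)]
      nlinarith
    · rw [max_eq_left (by linarith)]
      norm_num

end Pool.Agent.Helper11.E3.FAM3
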