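import Pool.Agent.Helper65.E3.Defs

/-!
Part POLY3: the polynomial inequality for order three.
-/

set_option autoImplicit false

open Real

namespace Pool.Agent.Helper11.E3.POLY3

open Pool.Agent.Helper65.E3

theorem main : S_POLY3 := by
  intro α β η hα hαβ hgap
  have hs0 : 0 ≤ 4 * α * β * (1 - η) := (sq_nonneg _).trans hgap.le
  have hab : 0 < α * β := by nlinarith
  have hr : α + β - 102 / 25 < √(4 * α * β * (1 - η)) := Real.lt_sqrt_of_sq_lt hgap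
  set R : ℝ := √(4 * α * β * (1 - η)) with hR
  have hRsq : R ^ 2 = 4 * α * β * (1 - η) := Real.sq_sqrt hs0
  set M₀ : ℝ := R / 4 with hM₀
  have hM1 : 198 / 100 < M₀ := by rw [hM₀]; linarith
  have hM0 : 0 < M₀ := by linarith
  have hMsq : 2 * M₀ ^ 2 = α * β / 2 - α * β * η / 2 := by
    rw [hM₀, div_pow, hRsq]; ring
  have hc : 0 < 4 * M₀ - (α + β) + 3267 / 800 := by rw [hM₀]; linarith
  set c : ℝ := min (4 * M₀ - (α + β) + 3267 / 800) M₀ with hcdef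
  have hc0 : 0 < c := lt_min hc hM0
  have hc1 : c ≤ 4 * M₀ - (α + β) + 3267 / 800 := min_le_left _ _
  have hc2 : c ≤ M₀ := min_le_right _ _
  set m₀ : ℝ := M₀ ^ (((3 : ℕ) : ℝ)⁻¹) with hm₀
  have hm₀0 : 0 < m₀ := by rw [hm₀]; positivity
  have hm₀h : m₀ ^ 3 = M₀ := by
    rw [hm₀]
    exact Real.rpow_inv_natCast_pow hM0.le (by norm_num)
  refine ⟨33 / 16 * m₀, by positivity, 3 / 4 * c * M₀, by positivity, fun m hm => ?_⟩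
  have e1 : 2 * (m ^ 3) ^ 2 - (α + β) * m ^ 3 + α * β / 2 + 99 / 25 * (33 / 16 * m₀) * m ^ 2 -
      24 / 25 * (33 / 16 * m₀) ^ 2 * m = α * β * η / 2 + 2 * (m ^ 3 - M₀) ^ 2 +
      (4 * M₀ - (α + β) + 3267 / 800) * m ^ 3 - 3267 / 800 * (m * (m - m₀) ^ 2) := by
    have : α * β / 2 = 2 * M₀ ^ 2 + α * β * η / 2 := by linarith
    rw [this]
    ring
  rw [e1]
  have hm3 : 0 ≤ m ^ 3 := by positivity
  have h1 : 4 * M₀ * (m * (m - m₀) ^ 2) ≤ (m ^ 3 - M₀) ^ 2 := by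
    have e2 : (m ^ 3 - M₀) ^ 2 = (m - m₀) ^ 2 * (m ^ 2 + m * m₀ + m₀ ^ 2) ^ 2 := by
      rw [← hm₀h]; ring
    have h2 : 4 * m₀ ^ 3 * m ≤ (m ^ 2 + m * m₀ + m₀ ^ 2) ^ 2 := by
      have h3 : (m ^ 2 + m * m₀ + m₀ ^ 2) ^ 2 - 4 * m₀ ^ 3 * m =
          m₀ ^ 2 * (m - m₀) ^ 2 + m ^ 2 * (m ^ 2 + 2 * m * m₀ + 2 * m₀ ^ 2) := by ring
      have h4 : 0 ≤ m₀ ^ 2 * (m - m₀) ^ 2 + m ^ 2 * (m ^ 2 + 2 * m * m₀ + 2 * m₀ ^ 2) := by
        positivity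
      linarith
    rw [e2, ← hm₀h]
    calc 4 * m₀ ^ 3 * (m * (m - m₀) ^ 2) = (m - m₀) ^ 2 * (4 * m₀ ^ 3 * m) := by ring
      _ ≤ _ := mul_le_mul_of_nonneg_left h2 (sq_nonneg _)
  have h5 : 0 ≤ m * (m - m₀) ^ 2 := by positivity
  have h6 : 3267 / 800 * (m * (m - m₀) ^ 2) ≤ (m ^ 3 - M₀) ^ 2 := by
    refine le_trans ?_ h1
    apply mul_le_mul_of_nonneg_right _ h5
    linarith
  have h7 : c * m ^ 3 ≤ (4 * M₀ - (α + β) + 3267 / 800) * m ^ 3 :=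
    mul_le_mul_of_nonneg_right hc1 hm3
  have h8 : 3 / 4 * c * M₀ ≤ (m ^ 3 - M₀) ^ 2 + c * m ^ 3 := by
    have e3 : (m ^ 3 - M₀) ^ 2 + c * m ^ 3 - 3 / 4 * c * M₀ =
        (m ^ 3 - M₀ + c / 2) ^ 2 + c / 4 * (M₀ - c) := by ring
    have h9 : 0 ≤ (m ^ 3 - M₀ + c / 2) ^ 2 + c / 4 * (M₀ - c) := by
      have : 0 ≤ M₀ - c := by linarith
      positivity
    linarith
  linarith only [h6, h7, h8]

end Pool.Agent.Helper11.E3.POLY3
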